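import Pool.Agent.U192.TF.Tr
import Pool.Agent.N442.SX.SEC2
import Pool.Agent.N123.SX.PULL

/-!
Products of forms on two varieties: local estimates.
-/

set_option autoImplicit false
set_option linter.overlappingInstances false
set_option linter.unusedSectionVars false

open FF Pool.Agent.W602.GT Pool.Agent.W603.LV Pool.Agent.W619.PQ Pool.Agent.Y172
open Pool.Agent.N145.SX (HX)
open Pool.Agent.Y184.NT (trForm trForm_pluri)

namespace Pool.Agent.U192.TP

open Pool.Agent.U192.TF (minor_log minor_log' minor_reg)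

/-- the coordinates on the product -/
noncomputable def zz2 {E F : Type} (K : Type) [Field K] [Field E] [Field F] [Algebra E K]
    [Algebra F K] {d e : ℕ} (x : Fin d → E) (s : Fin e → F) : Fin (d + e) → K :=
  Fin.append (fun j => algebraMap E K (x j)) (fun j => algebraMap F K (s j))

/-- the functions `φ` such that `φ ds_1 ... ds_e` is a canonical form -/
def HC {F : Type} [Field F] [Algebra ℂ F] {e : ℕ} (s : Fin e → F) : Set F :=
  HX s (fun _ => False)

section

variable {K E F : Type} [Field K] [Field E] [Field F] [Algebra ℂ K] [Algebra ℂ E] [Algebra ℂ F]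
  [Algebra E K] [Algebra F K] [IsScalarTower ℂ E K] [IsScalarTower ℂ F K]
  [Algebra.EssFiniteType ℂ F] {d e : ℕ} (hF : Algebra.trdeg ℂ F = e)
  (hK : Algebra.trdeg ℂ K = (d + e : ℕ)) {s : Fin e → F} (hs : IsTranscendenceBasis ℂ s)
  {φ : F} (hφ : φ ∈ HC s)

include hF hK hs hφ in
/-- the product form divided by a coordinate is logarithmic -/
theorem form_logx {Q : Place ℂ K} (hQ : Divisorial (d + e) Q) {x : Fin d → E} {i0 : Fin d}
    (hx : ∀ b, Ge Q 0 (algebraMap E K (x b))) (h0 : ∀ b, x b ≠ 0) :
    LogAt Q (trForm (zz2 K x s) (algebraMap E K (x i0)⁻¹ * algebraMap F K φ)) := by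
  intro D hD
  exact Pool.Agent.N442.SX.core Q (DerLog Q) (Pool.Agent.N442.SX.derLog_sub Q)
    (fun i => algebraMap E K (x i)) (fun j => algebraMap F K (s j)) (algebraMap E K (x i0)⁻¹)
    (algebraMap F K φ) (fun D' hD' => minor_log hx h0 hD')
    (fun D' hD' => Pool.Agent.N123.SX.PULL F K e (d + e) hF hK s hs _ φ hφ Q hQ D' (Or.inl hD'))
    D hD

include hF hK hs hφ in
/-- the product form is regular -/
theorem form_reg {Q : Place ℂ K} (hQ : Divisorial (d + e) Q) {x : Fin d → E}
    (hx : ∀ b, Ge Q 0 (algebraMap E K (x b))) :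
    RegAt Q (trForm (zz2 K x s) (algebraMap F K φ)) := by
  intro D hD
  have h1 := Pool.Agent.N442.SX.core Q (DerReg Q) (Pool.Agent.N442.SX.derReg_sub Q)
    (fun i => algebraMap E K (x i)) (fun j => algebraMap F K (s j)) (algebraMap E K 1)
    (algebraMap F K φ) (fun D' hD' => minor_reg hx hD')
    (fun D' hD' => Pool.Agent.N123.SX.PULL F K e (d + e) hF hK s hs _ φ hφ Q hQ D'
      (Or.inr ⟨fun ⟨_, _, h, _⟩ => h, hD'⟩))
    D hD
  rwa [map_one, one_mul] at h1

/-- change of the coordinates on the variety -/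
theorem form_change_x [Algebra.EssFiniteType ℂ E] {x x' : Fin d → E} {E' : Fin d → Derivation ℂ E E}
    (hx' : IsTranscendenceBasis ℂ x') (hE' : ∀ i j, E' i (x' j) = if i = j then 1 else 0)
    (s : Fin e → F) (g : K) (D : Fin (d + e) → Derivation ℂ K K) :
    trForm (zz2 K x s) g D = algebraMap E K (Matrix.of fun i j => E' i (x j)).det *
      trForm (zz2 K x' s) g D := by
  classical
  unfold trForm
  rw [← mul_assoc]
  congr 1
  have h1 : (Matrix.of fun i j => D i (zz2 K x s j) : Matrix (Fin (d + e)) (Fin (d + e)) K) =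
      (Matrix.of fun i j => D i (zz2 K x' s j)) *
        (Matrix.fromBlocks ((Matrix.of fun i j => E' i (x j)).map (algebraMap E K)) 0 0
          (1 : Matrix (Fin e) (Fin e) K)).submatrix finSumFinEquiv.symm finSumFinEquiv.symm := by
    ext i j
    rw [Matrix.mul_apply, ← finSumFinEquiv.sum_comp, Fintype.sum_sum_type]
    have e1 : ∀ (u : Fin d → E) (a : Fin d), zz2 K u s (finSumFinEquiv (Sum.inl a)) =
        algebraMap E K (u a) := fun u a => by
      unfold zz2
      rw [finSumFinEquiv_apply_left, Fin.append_left]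
    have e2 : ∀ (u : Fin d → E) (a : Fin e), zz2 K u s (finSumFinEquiv (Sum.inr a)) =
        algebraMap F K (s a) := fun u a => by
      unfold zz2
      rw [finSumFinEquiv_apply_right, Fin.append_right]
    obtain ⟨j, rfl⟩ := finSumFinEquiv.surjective j
    rcases j with j | j
    · simp only [Matrix.of_apply, Matrix.submatrix_apply, Equiv.symm_apply_apply,
        Matrix.fromBlocks_apply₁₁, Matrix.fromBlocks_apply₂₁, Matrix.zero_apply, mul_zero,
        Finset.sum_const_zero, add_zero, e1, Matrix.map_apply]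
      rw [Pool.Agent.W308.PG.YLOC.expand (k := ℂ) (K := E) (L := K) x' E' hx' hE' (D i) (x j)]
      exact Finset.sum_congr rfl fun l _ => mul_comm _ _
    · simp only [Matrix.of_apply, Matrix.submatrix_apply, Equiv.symm_apply_apply,
        Matrix.fromBlocks_apply₁₂, Matrix.fromBlocks_apply₂₂, Matrix.zero_apply, mul_zero,
        Finset.sum_const_zero, zero_add, e2, Matrix.one_apply]
      simp
  rw [h1, Matrix.det_mul, Matrix.det_submatrix_equiv_self, Matrix.det_fromBlocks_zero₂₁,
    Matrix.det_one, mul_one, mul_comm]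
  congr 1
  exact (RingHom.map_det (algebraMap E K) _).symm

end

end Pool.Agent.U192.TP
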