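import Pool.Agent.U192.TP.Prod
import Pool.Agent.U192.TF.Genus

/-!
Images of varieties which dominate a product: the Kodaira dimension.
-/

set_option autoImplicit false
set_option linter.overlappingInstances false
set_option linter.unusedSectionVars false
set_option maxHeartbeats 4000000
set_option synthInstance.maxHeartbeats 400000

open FF Module Pool.Agent.W602.GT Pool.Agent.W603.LV Pool.Agent.W619.PQ Pool.Agent.Y172
open Pool.Agent.Y184.NT (trForm trForm_pluri)
open Pool.Agent.Y174 (PairSec PairKod PairNum)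
open Pool.Agent.W619.TW (HasIndep NumLe)

namespace Pool.Agent.U192.TP

open Pool.Agent.U192.NM (pow_form pow_form_pluri)
open Pool.Agent.U192.PE (RegS kod_of_regS)
open Pool.Agent.U192.TF (NN EN span_subfield kodGe_of_pair_log)

/-- algebraic independence of two families -/
theorem indep_append {E N : Type} [Field E] [Field N] [Algebra ℂ E] [Algebra ℂ N] [Algebra E N]
    [IsScalarTower ℂ E N] {a b : ℕ} {x : Fin a → E} (hx : AlgebraicIndependent ℂ x) {u : Fin b → N}
    (hu : AlgebraicIndependent E u) :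
    AlgebraicIndependent ℂ (Fin.append (fun j => algebraMap E N (x j)) u) := by
  have h2 := hx.sumElim_comp hu
  let f : Fin (a + b) → Fin b ⊕ Fin a := fun j => (finSumFinEquiv.symm j).swap
  have hf : Function.Injective f := fun i j hij =>
    finSumFinEquiv.symm.injective (Sum.swap_leftInverse.injective hij)
  have h3 := h2.comp f hf
  have h4 : (Sum.elim u (algebraMap E N ∘ x)) ∘ f = Fin.append (fun j => algebraMap E N (x j)) u := by
    funext i
    obtain ⟨i, rfl⟩ := finSumFinEquiv.surjective i
    rw [Function.comp_apply]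
    have h5 : f (finSumFinEquiv i) = i.swap := by
      change (finSumFinEquiv.symm (finSumFinEquiv i)).swap = i.swap
      rw [Equiv.symm_apply_apply]
    rw [h5]
    rcases i with i | i
    · rw [finSumFinEquiv_apply_left, Fin.append_left]
      rfl
    · rw [finSumFinEquiv_apply_right, Fin.append_right]
      rfl
  rw [h4] at h3
  exact h3

section

variable {K : Type} [Field K] [Algebra ℂ K] [Algebra.EssFiniteType ℂ K] {d e : ℕ}
  {E E1 F : IntermediateField ℂ K}
  {L : Type} [Field L] [Algebra ℂ L] [Algebra L K] [IsScalarTower ℂ L K] [FiniteDimensional L K]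

/-- **Images of varieties which dominate a product.** -/
theorem main (hle : E ≤ E1) (hE : Algebra.trdeg ℂ E = d) (hE1 : Algebra.trdeg ℂ E1 = d)
    (hF : Algebra.trdeg ℂ F = e) (hK : Algebra.trdeg ℂ K = (d + e : ℕ)) {T : Finset E}
    (hT : ∀ z ∈ IntermediateField.adjoin L (E : Set K),
      z ∈ Submodule.span L {z : K | ∃ t : E, (t = 1 ∨ t ∈ T) ∧ (t : K) = z})
    {m a b : ℕ} (hm : 1 ≤ m) {θ : Fin (a + 1) → (Fin d → Derivation ℂ E E) → E}
    (hθ : ∀ l, IsPluri m (θ l))
    (hpos : ∀ l, ∀ v : Place ℂ E, Divisorial d v → ∀ G : Fin d → Derivation ℂ E E,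
      (∀ i, DerReg v (G i)) → θ l G = 0 ∨ ∀ t : E, (t = 1 ∨ t ∈ T) → t ≠ 0 →
        (0 : ℤ) ≤ v.ord (θ l G) + 2 * m * v.ord t)
    {G0 : Fin d → Derivation ℂ E E} (hG0 : θ 0 G0 ≠ 0)
    (hind : AlgebraicIndependent ℂ fun j : Fin a => θ j.succ G0 / θ 0 G0)
    {x : Fin d → E} (hx : IsTranscendenceBasis ℂ x) {s : Fin e → F}
    (hs : IsTranscendenceBasis ℂ s) {φ : Fin (b + 1) → F} (hφ : ∀ k, φ k ∈ HC s)
    {D : Fin (d + e) → Derivation ℂ (NN L E1) (NN L E1)}
    {D' : Fin (d + e) → Derivation ℂ K K}
    (hD : ∀ i z, D' i (algebraMap (NN L E1) K z) = algebraMap (NN L E1) K (D i z))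
    (h0 : Algebra.trace (NN L E1) K (trForm (zz2 K x s) (algebraMap F K (φ 0)) D') ≠ 0)
    (hindφ : AlgebraicIndependent (EN L E1) fun k : Fin b =>
      Algebra.trace (NN L E1) K (trForm (zz2 K x s) (algebraMap F K (φ k.succ)) D') /
        Algebra.trace (NN L E1) K (trForm (zz2 K x s) (algebraMap F K (φ 0)) D')) :
    KodGe ℂ L (d + e) (fun _ => False) (a + b) := by
  classical
  have hL : Algebra.trdeg ℂ L = (d + e : ℕ) := Pool.Agent.Y184.NT.trdeg_below (K := K) hK
  have hessL : Algebra.EssFiniteType ℂ L := Pool.Agent.TH466.QG.ess_below (K := K)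
  have hessE : Algebra.EssFiniteType ℂ E := Pool.Agent.N999.SX.ess_any E
  have hessF : Algebra.EssFiniteType ℂ F := Pool.Agent.N999.SX.ess_any F
  have hessE1 : Algebra.EssFiniteType ℂ E1 := Pool.Agent.N999.SX.ess_any E1
  -- the fields
  let iEE1 : Algebra E E1 := (IntermediateField.inclusion hle).toRingHom.toAlgebra
  have tE1 : IsScalarTower ℂ E E1 := IsScalarTower.of_algebraMap_eq fun _ => rfl
  let N := IntermediateField.adjoin L (E1 : Set K)
  let M := IntermediateField.adjoin L (E : Set K)
  have hMN : M ≤ N := IntermediateField.adjoin.mono L _ _ hle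
  let iMN : Algebra M N := (IntermediateField.inclusion hMN).toRingHom.toAlgebra
  let iEM : Algebra E M := ({ toFun := fun u => ⟨(u : K), IntermediateField.subset_adjoin L _ u.2⟩
                              map_one' := rfl
                              map_mul' := fun _ _ => rfl
                              map_zero' := rfl
                              map_add' := fun _ _ => rfl } : E →+* M).toAlgebra
  let iEN : Algebra E N := ({ toFun := fun u => ⟨(u : K), hMN
                                (IntermediateField.subset_adjoin L _ u.2)⟩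
                              map_one' := rfl
                              map_mul' := fun _ _ => rfl
                              map_zero' := rfl
                              map_add' := fun _ _ => rfl } : E →+* N).toAlgebra
  have s1 : IsScalarTower ℂ M N := IsScalarTower.of_algebraMap_eq fun _ => rfl
  have s2 : IsScalarTower ℂ N K := IsScalarTower.of_algebraMap_eq fun _ => rfl
  have s3 : IsScalarTower L M N := IsScalarTower.of_algebraMap_eq fun _ => rfl
  have s4 : IsScalarTower ℂ E M := IsScalarTower.of_algebraMap_eq fun _ => rfl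
  have s5 : IsScalarTower ℂ E N := IsScalarTower.of_algebraMap_eq fun _ => rfl
  have s6 : IsScalarTower E M N := IsScalarTower.of_algebraMap_eq fun _ => rfl
  have s7 : IsScalarTower E N K := IsScalarTower.of_algebraMap_eq fun _ => rfl
  have hfMN : FiniteDimensional M N := FiniteDimensional.right L M N
  have hessN : Algebra.EssFiniteType ℂ N := Pool.Agent.TH466.QG.ess_below (K := K)
  -- the coordinates on the variety
  choose Ex hEx using fun i : Fin d => Pool.Agent.W602.GT.exists_der x hx
    fun j => if i = j then (1 : E) else 0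
  have halgE : Algebra.IsAlgebraic E E1 := by
    rw [← trdeg_eq_zero_iff]
    have h1 := _root_.trdeg_add_eq ℂ E (A := E1)
    rw [hE1, hE] at h1
    have h2 : (d : Cardinal) + Algebra.trdeg E E1 = d + 0 := by rw [h1, add_zero]
    exact Cardinal.eq_of_add_eq_add_left h2 (Cardinal.natCast_lt_aleph0)
  -- the frames
  obtain ⟨y, G, hy, hG⟩ := exists_crd hL
  have hnN : Algebra.trdeg ℂ N = (d + e : ℕ) := Pool.Agent.Y172.trdeg_up (K := L) hL
  choose GN hGN using fun i => exists_lift (L := N) hL (G i)
  choose G' hG' using fun i => exists_lift (L := K) hnN (GN i)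
  have hyN : IsTranscendenceBasis ℂ (fun j => algebraMap L N (y j)) := hy.algebraMap_comp
  have hyK : IsTranscendenceBasis ℂ (fun j => algebraMap L K (y j)) := hy.algebraMap_comp
  have hGNd := lift_dual hG hGN
  -- the traces
  have hyKN : IsTranscendenceBasis ℂ (fun j => algebraMap N K (algebraMap L N (y j))) :=
    hyN.algebraMap_comp
  have hGKN := lift_dual hGNd hG'
  obtain ⟨τ, hτ⟩ : ∃ τ : Fin (b + 1) → N, ∀ k, τ k = tr x s (φ k) G' := ⟨_, fun _ => rfl⟩
  obtain ⟨A, hA⟩ : ∃ A : N, A = (Matrix.of fun i j => D i (algebraMap L N (y j)) :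
    Matrix (Fin (d + e)) (Fin (d + e)) N).det := ⟨_, rfl⟩
  have hval : ∀ k, Algebra.trace N K (trForm (zz2 K x s) (algebraMap F K (φ k)) D') = A * τ k := by
    intro k
    have h1 := Pool.Agent.Y172.pluri_coord hyKN hGKN
      (trForm_pluri (zz2 K x s) (algebraMap F K (φ k))) D'
    rw [pow_one] at h1
    have h2 : (Matrix.of fun i j => D' i (algebraMap N K (algebraMap L N (y j))) :
        Matrix (Fin (d + e)) (Fin (d + e)) K).det = algebraMap N K A := by
      rw [hA, RingHom.map_det]
      congr 1
      ext i j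
      rw [RingHom.mapMatrix_apply, Matrix.map_apply, Matrix.of_apply, Matrix.of_apply]
      exact hD i _
    rw [h2] at h1
    rw [h1, ← Algebra.smul_def, map_smul, smul_eq_mul, hτ]
    rfl
  have hAτ : A ≠ 0 ∧ τ 0 ≠ 0 := by
    rw [show Algebra.trace (NN L E1) K (trForm (zz2 K x s) (algebraMap F K (φ 0)) D') =
      A * τ 0 from hval 0] at h0
    exact ⟨left_ne_zero_of_mul h0, right_ne_zero_of_mul h0⟩
  have hτ0 : τ 0 ≠ 0 := hAτ.2
  have hratio : (fun k : Fin b =>
      Algebra.trace (NN L E1) K (trForm (zz2 K x s) (algebraMap F K (φ k.succ)) D') /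
        Algebra.trace (NN L E1) K (trForm (zz2 K x s) (algebraMap F K (φ 0)) D')) =
      fun k : Fin b => τ k.succ / τ 0 := by
    funext k
    rw [show Algebra.trace (NN L E1) K (trForm (zz2 K x s) (algebraMap F K (φ k.succ)) D') =
      A * τ k.succ from hval _, show Algebra.trace (NN L E1) K
        (trForm (zz2 K x s) (algebraMap F K (φ 0)) D') = A * τ 0 from hval _,
      mul_div_mul_left _ _ hAτ.1]
  rw [hratio] at hindφ
  -- the bases
  obtain ⟨S0, hS0⟩ : ∃ S0 : Set M, S0 = {z | ∃ t : E, (t = 1 ∨ t ∈ T) ∧ algebraMap E M t = z} :=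
    ⟨_, rfl⟩
  have hspan0 : ⊤ ≤ Submodule.span L S0 := by
    intro z _
    have h1 := hT (z : K) z.2
    have h2 : {z : K | ∃ t : E, (t = 1 ∨ t ∈ T) ∧ (t : K) = z} = M.val.toLinearMap '' S0 := by
      ext w
      rw [hS0]
      constructor
      · rintro ⟨t, ht, rfl⟩
        exact ⟨algebraMap E M t, ⟨t, ht, rfl⟩, rfl⟩
      · rintro ⟨_, ⟨t, ht, rfl⟩, rfl⟩
        exact ⟨t, ht, rfl⟩
    rw [h2, ← Submodule.map_span] at h1
    obtain ⟨w, hw, hwz⟩ := h1
    have h3 : w = z := Subtype.ext hwz
    rwa [← h3]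
  obtain ⟨q, f, hf⟩ := Pool.Agent.U192.PB.exists_basis_mem (K := L) (L := M) S0 hspan0
  let S1 : Subfield N := E1.toSubfield.comap (algebraMap N K)
  have hadj : IntermediateField.adjoin M (S1 : Set N) = ⊤ := by
    rw [eq_top_iff]
    rintro ⟨z, hz⟩ -
    refine IntermediateField.adjoin_induction L
      (p := fun z hz => (⟨z, hz⟩ : N) ∈ IntermediateField.adjoin M (S1 : Set N)) ?_ ?_ ?_ ?_ ?_ hz
    · intro z hz
      exact IntermediateField.subset_adjoin M _ hz
    · intro u
      exact (IntermediateField.adjoin M (S1 : Set N)).algebraMap_mem (algebraMap L M u)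
    · intro x y _ _ hx hy
      exact add_mem hx hy
    · intro x _ hx
      exact inv_mem hx
    · intro x y _ _ hx hy
      exact mul_mem hx hy
  obtain ⟨q', bb, hb⟩ := Pool.Agent.U192.PB.exists_basis_mem (K := M) (L := N) (S1 : Set N)
    (span_subfield S1 hadj)
  have hb' : ∀ j, IsIntegral E (bb j) := by
    intro j
    have h1 : ((bb j : N) : K) ∈ E1 := hb j
    have h2 : IsIntegral E (⟨_, h1⟩ : E1) := (halgE.isAlgebraic _).isIntegral
    have tEK : IsScalarTower E E1 K := IsScalarTower.of_algebraMap_eq fun _ => rfl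
    have h3 : IsIntegral E (algebraMap E1 K (⟨_, h1⟩ : E1)) := h2.algebraMap
    exact (isIntegral_algebraMap_iff (algebraMap N K).injective).1 h3
  have hf' : ∀ j, ∃ g : E, g ≠ 0 ∧ (g = 1 ∨ g ∈ T) ∧ algebraMap E M g = f j := by
    intro j
    have h1 := hf j
    rw [hS0] at h1
    obtain ⟨g, hg, hgf⟩ := h1
    refine ⟨g, ?_, hg, hgf⟩
    rintro rfl
    rw [map_zero] at hgf
    exact f.ne_zero j hgf.symm
  -- the sections
  have hc : ∀ (c : N), pow_form m (fun j => algebraMap L N (y j)) c GN = c := by
    intro c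
    rw [pow_form, Pool.Agent.U192.NM.det_one' hGNd, one_pow, one_mul]
  have hreg : ∀ (φ' : Fin m → F), (∀ k, φ' k ∈ HC s) → ∀ l,
      RegS (fun P : Place ℂ L => if (fun _ => False) P then (1 : ℝ) else 0) M (d + e) m {1}
        (fun j => algebraMap M N (f j))
        (pow_form m (fun j => algebraMap L N (y j))
          ((∏ k, tr x s (φ' k) G') * algebraMap E N (θ l Ex))) := by
    intro φ' hφ' l
    exact regS_prod (F := F) (K := K) hE hF hnN bb hb' hf' (hθ l) (hpos l) hs hφ' hx hEx hyN
      hGNd hG'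
  have hθE : θ 0 Ex ≠ 0 := by
    intro h0
    apply hG0
    rw [pluri_coord hx hEx (hθ 0) G0, h0, mul_zero]
  have hr : ∀ j : Fin a, θ j.succ G0 / θ 0 G0 = θ j.succ Ex / θ 0 Ex := by
    intro j
    have h1 := pluri_coord hx hEx (hθ 0) G0
    have h2 := pluri_coord hx hEx (hθ j.succ) G0
    have h3 : (Matrix.of fun i j => G0 i (x j) : Matrix (Fin d) (Fin d) E).det ^ m ≠ 0 := by
      intro h0
      apply hG0
      rw [h1, h0, zero_mul]
    rw [h1, h2]
    field_simp
  -- the products of the traces
  let k0 : Fin m := ⟨0, hm⟩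
  obtain ⟨c1, hc1⟩ : ∃ c1 : N, c1 = ∏ _k : Fin m, τ 0 := ⟨_, rfl⟩
  obtain ⟨c2, hc2⟩ : ∃ c2 : Fin b → N, ∀ l, c2 l = ∏ k : Fin m, (if k = k0 then τ l.succ else τ 0) :=
    ⟨_, fun _ => rfl⟩
  have hc10 : c1 ≠ 0 := by
    rw [hc1]
    exact Finset.prod_ne_zero_iff.2 fun _ _ => hτ0
  have hc12 : ∀ l, c2 l = c1 * (τ l.succ / τ 0) := by
    intro l
    rw [hc1, hc2, ← Finset.mul_prod_erase Finset.univ _ (Finset.mem_univ k0),
      ← Finset.mul_prod_erase Finset.univ (fun _ => τ 0) (Finset.mem_univ k0), if_pos rfl]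
    have h1 : ∏ k ∈ Finset.univ.erase k0, (if k = k0 then τ l.succ else τ 0) =
        ∏ k ∈ Finset.univ.erase k0, τ 0 := by
      refine Finset.prod_congr rfl fun k hk => ?_
      rw [if_neg (Finset.ne_of_mem_erase hk)]
    rw [h1]
    field_simp
  have hR1 : ∀ l, RegS (fun P : Place ℂ L => if (fun _ => False) P then (1 : ℝ) else 0) M
      (d + e) m {1} (fun j => algebraMap M N (f j))
      (pow_form m (fun j => algebraMap L N (y j)) (c1 * algebraMap E N (θ l Ex))) := by
    intro l
    have h1 := hreg (fun _ => φ 0) (fun _ => hφ 0) l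
    rw [hc1, hτ]
    exact h1
  have hR2 : ∀ j l, RegS (fun P : Place ℂ L => if (fun _ => False) P then (1 : ℝ) else 0) M
      (d + e) m {1} (fun j => algebraMap M N (f j))
      (pow_form m (fun j => algebraMap L N (y j)) (c2 j * algebraMap E N (θ l Ex))) := by
    intro j l
    have h1 := hreg (fun k => if k = k0 then φ j.succ else φ 0) (fun k => by
      beta_reduce
      split_ifs
      · exact hφ _
      · exact hφ _) l
    have h2 : ∏ k : Fin m, (tr x s (if k = k0 then φ j.succ else φ 0) G' : N) = c2 j := by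
      rw [hc2]
      refine Finset.prod_congr rfl fun k _ => ?_
      split_ifs
      · rw [hτ]
      · rw [hτ]
    rw [h2] at h1
    exact h1
  obtain ⟨Θ, hΘ0, hΘ1, hΘ2⟩ : ∃ Θ : Fin (a + b + 1) → (Fin (d + e) → Derivation ℂ N N) → N,
      (Θ 0 = pow_form m (fun j => algebraMap L N (y j)) (c1 * algebraMap E N (θ 0 Ex))) ∧
      (∀ l : Fin a, Θ (Fin.castAdd b l).succ =
        pow_form m (fun j => algebraMap L N (y j)) (c1 * algebraMap E N (θ l.succ Ex))) ∧
      (∀ l : Fin b, Θ (Fin.natAdd a l).succ =
        pow_form m (fun j => algebraMap L N (y j)) (c2 l * algebraMap E N (θ 0 Ex))) := by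
    refine ⟨Fin.cons (α := fun _ => (Fin (d + e) → Derivation ℂ N N) → N)
      (pow_form m (fun j => algebraMap L N (y j)) (c1 * algebraMap E N (θ 0 Ex)))
      (Fin.append (fun l : Fin a =>
        pow_form m (fun j => algebraMap L N (y j)) (c1 * algebraMap E N (θ l.succ Ex)))
        (fun l : Fin b =>
        pow_form m (fun j => algebraMap L N (y j)) (c2 l * algebraMap E N (θ 0 Ex)))),
      ?_, fun l => ?_, fun l => ?_⟩
    · rw [Fin.cons_zero]
    · rw [Fin.cons_succ, Fin.append_left]
    · rw [Fin.cons_succ, Fin.append_right]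
  have hall : ∀ l, IsPluri m (Θ l) ∧
      RegS (fun P : Place ℂ L => if (fun _ => False) P then (1 : ℝ) else 0) M
      (d + e) m {1} (fun j => algebraMap M N (f j)) (Θ l) := by
    intro l
    induction l using Fin.cases with
    | zero =>
      rw [hΘ0]
      exact ⟨pow_form_pluri _ _ _, hR1 0⟩
    | succ l =>
      induction l using Fin.addCases with
      | left l =>
        rw [hΘ1]
        exact ⟨pow_form_pluri _ _ _, hR1 _⟩
      | right l =>
        rw [hΘ2]
        exact ⟨pow_form_pluri _ _ _, hR2 _ _⟩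
  refine kodGe_of_pair_log hL (kod_of_regS (K := L) (M := M) (L := N) f hm hnN
    (θ := Θ) (fun l => (hall l).1) (fun l => (hall l).2) (D0 := GN) ?_ ?_)
  · rw [hΘ0, hc]
    refine mul_ne_zero hc10 ?_
    rwa [Ne, map_eq_zero]
  · have hE0 : algebraMap E N (θ 0 Ex) ≠ 0 := by rwa [Ne, map_eq_zero]
    -- the functions on the variety
    let EE : IntermediateField ℂ N := EN L E1
    let j0 : E →ₐ[ℂ] EE :=
      { toFun := fun u => ⟨algebraMap E N u, hle u.2⟩
        map_one' := rfl
        map_mul' := fun _ _ => rfl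
        map_zero' := rfl
        map_add' := fun _ _ => rfl
        commutes' := fun _ => rfl }
    have h5 : AlgebraicIndependent ℂ (fun j : Fin a => j0 (θ j.succ G0 / θ 0 G0)) :=
      hind.map' j0.toRingHom.injective
    have h6 := indep_append h5 hindφ
    have h1 : (fun j : Fin (a + b) => Θ j.succ GN / Θ 0 GN) =
        Fin.append (fun j : Fin a => algebraMap EE N (j0 (θ j.succ G0 / θ 0 G0)))
          (fun k : Fin b => τ k.succ / τ 0) := by
      funext j
      rw [hΘ0, hc]
      induction j using Fin.addCases with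
      | left j =>
        rw [Fin.append_left, hΘ1, hc, mul_div_mul_left _ _ hc10, ← map_div₀, ← hr]
        rfl
      | right j =>
        rw [Fin.append_right, hΘ2, hc, hc12]
        field_simp
    rw [h1]
    exact h6

end

end Pool.Agent.U192.TP
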