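import Pool.Agent.U192.TP.Tr
import Pool.Agent.U192.TF.Prod

/-!
Products of pluricanonical forms on a variety with traces of products of forms: the regularity.
-/

set_option autoImplicit false
set_option linter.overlappingInstances false
set_option linter.unusedSectionVars false

open FF Pool.Agent.W602.GT Pool.Agent.W603.LV Pool.Agent.W619.PQ Pool.Agent.Y172
open Pool.Agent.Y184.NT (trForm trForm_pluri)

namespace Pool.Agent.U192.TP

open Pool.Agent.U192.NM (pow_form pow_form_pluri)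
open Pool.Agent.U192.PE (RegS)
open Pool.Agent.U192.TF (trForm_smul ge_prod unram)

section

variable {L M N K E F : Type} [Field L] [Field M] [Field N] [Field K] [Field E] [Field F]
  [Algebra ℂ L] [Algebra ℂ M] [Algebra ℂ N] [Algebra ℂ K] [Algebra ℂ E] [Algebra ℂ F]
  [Algebra L M] [Algebra L N] [Algebra M N] [Algebra N K]
  [Algebra E M] [Algebra E N] [Algebra E K] [Algebra F K]
  [IsScalarTower ℂ L M] [IsScalarTower ℂ L N] [IsScalarTower ℂ M N] [IsScalarTower ℂ N K]
  [IsScalarTower L M N] [IsScalarTower ℂ E M] [IsScalarTower ℂ E N] [IsScalarTower ℂ E K]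
  [IsScalarTower E M N] [IsScalarTower E N K] [IsScalarTower ℂ F K]
  [FiniteDimensional L M] [FiniteDimensional L N] [FiniteDimensional M N] [FiniteDimensional N K]
  [Algebra.EssFiniteType ℂ L] [Algebra.EssFiniteType ℂ N]
  [Algebra.EssFiniteType ℂ K] [Algebra.EssFiniteType ℂ E] [Algebra.EssFiniteType ℂ F]

theorem value_prod {n m : ℕ} {y : Fin n → N} {τ : Fin m → N} {c : N}
    {D : Fin n → Derivation ℂ N N} :
    pow_form m y ((∏ k, τ k) * c) D = (∏ k, trForm y (τ k) D) * c := by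
  unfold pow_form trForm
  rw [Finset.prod_mul_distrib, Finset.prod_const, Finset.card_univ, Fintype.card_fin]
  ring

/-- **The products with the traces are regular.** -/
theorem regS_prod {d e m q q' : ℕ} (hE : Algebra.trdeg ℂ E = d) (hF : Algebra.trdeg ℂ F = e)
    (hn : Algebra.trdeg ℂ N = (d + e : ℕ)) (b : Module.Basis (Fin q') M N)
    (hb : ∀ j, IsIntegral E (b j)) {T : Finset E} {f : Fin q → M}
    (hf : ∀ j, ∃ g : E, g ≠ 0 ∧ (g = 1 ∨ g ∈ T) ∧ algebraMap E M g = f j)
    {θ : (Fin d → Derivation ℂ E E) → E} (hθ : IsPluri m θ)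
    (hpos : ∀ v : Place ℂ E, Divisorial d v → ∀ G : Fin d → Derivation ℂ E E,
      (∀ i, DerReg v (G i)) → θ G = 0 ∨ ∀ t : E, (t = 1 ∨ t ∈ T) → t ≠ 0 →
        (0 : ℤ) ≤ v.ord (θ G) + 2 * m * v.ord t)
    {s : Fin e → F} (hs : IsTranscendenceBasis ℂ s)
    {φ : Fin m → F} (hφ : ∀ k, φ k ∈ HC s) {x : Fin d → E} {Ex : Fin d → Derivation ℂ E E}
    (hx : IsTranscendenceBasis ℂ x) (hEx : ∀ i j, Ex i (x j) = if i = j then 1 else 0)
    {y : Fin (d + e) → N} {G : Fin (d + e) → Derivation ℂ N N} (hy : IsTranscendenceBasis ℂ y)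
    (hG : ∀ i j, G i (y j) = if i = j then 1 else 0) {G' : Fin (d + e) → Derivation ℂ K K}
    (hG' : ∀ i f, G' i (algebraMap N K f) = algebraMap N K (G i f)) :
    RegS (fun P : Place ℂ L => if (fun _ => False) P then (1 : ℝ) else 0) M (d + e) m {1}
      (fun j => algebraMap M N (f j))
      (pow_form m y ((∏ k, tr x s (φ k) G') * algebraMap E N (θ Ex))) := by
  classical
  intro P Q e0 hQ hQd c hc D hD
  by_cases hcase : pow_form m y ((∏ k, tr x s (φ k) G') * algebraMap E N (θ Ex)) D = 0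
  · exact Or.inl hcase
  refine Or.inr ⟨1, Finset.mem_singleton_self _, one_ne_zero, fun j => ?_⟩
  rw [Q.ord_one, Int.cast_zero, add_zero]
  obtain ⟨g, hg0, hgT, hgf⟩ := hf j
  have e1 : algebraMap M N (f j) = algebraMap E N g := by
    rw [← hgf, ← IsScalarTower.algebraMap_apply E M N]
  rw [value_prod] at hcase ⊢
  obtain ⟨τ, hτ⟩ : ∃ τ : Fin m → N, ∀ k, τ k = tr x s (φ k) G' := ⟨_, fun _ => rfl⟩
  simp only [← hτ] at hcase ⊢
  have hm0 : (0 : ℤ) ≤ m := Int.natCast_nonneg m
  suffices h : (m : ℤ) * (c - 1) ≤ Q.ord ((∏ k, trForm y (τ k) D) * algebraMap E N (θ Ex)) +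
      2 * m * Q.ord (algebraMap M N (f j)) + m * e0 * (if (fun _ => False) P then 1 else 0) by
    have h2 : (((m : ℤ) * (c - 1) : ℤ) : ℝ) ≤
      ((Q.ord ((∏ k, trForm y (τ k) D) * algebraMap E N (θ Ex)) +
      2 * m * Q.ord (algebraMap M N (f j)) + m * e0 * (if (fun _ => False) P then 1 else 0) : ℤ)
        : ℝ) := by
      exact_mod_cast h
    push_cast at h2
    exact h2
  rw [e1, if_neg id, mul_zero, add_zero]
  have hne1 := left_ne_zero_of_mul hcase
  have hne2 := right_ne_zero_of_mul hcase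
  by_cases htriv : ∀ z : E, Q.ord (algebraMap E N z) = 0
  · rw [Q.ord_mul hne1 hne2, htriv, htriv, add_zero, mul_zero, add_zero]
    have h1 := ge_prod (Q := Q) (m := m) (c := 0) (g := fun k => trForm y (τ k) D) fun k => by
      rw [hτ]
      exact ge_triv_reg hF hs (hφ k) hn hy hG hG' hQd htriv (x := x) hD
    rw [mul_zero] at h1
    have h2 := h1.resolve_left hne1
    obtain ⟨PM, e', hPM⟩ := exists_below (k := ℂ) (K := M) (L := N) Q
    have h3 : e' = 1 := unram b hb (fun c => hPM.reg.1 (by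
      rw [← IsScalarTower.algebraMap_apply E M N]
      exact Or.inr (htriv c).ge)) hPM
    obtain ⟨π, -, hπ⟩ := PM.surj
    have h4 := hc π
    rw [hPM.2, hπ, h3] at h4
    have h5 : c = 1 := Nat.dvd_one.1 (by exact_mod_cast h4)
    rw [h5]
    push_cast
    linarith
  · push Not at htriv
    obtain ⟨z, hz⟩ := htriv
    obtain ⟨r, v, hv⟩ := exists_over (K := E) Q ⟨z, hz⟩
    have hvd : Divisorial d v := Pool.Agent.W619.Y.pDIVR.{0, 0} ℂ E N d (d + e) v Q r hE hn hv hQd
    obtain ⟨x', E', i0, hl⟩ := exists_loc hE hvd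
    have hcr : (c : ℤ) ≤ r := by
      obtain ⟨π, -, hπ⟩ := v.surj
      have h1 := hc (algebraMap E M π)
      rw [← IsScalarTower.algebraMap_apply E M N, hv.2, hπ, mul_one] at h1
      exact_mod_cast Nat.le_of_dvd hv.1 (by exact_mod_cast h1)
    obtain ⟨τ', hτ'⟩ : ∃ τ' : Fin m → N, ∀ k, τ' k = tr x' s (φ k) G' := ⟨_, fun _ => rfl⟩
    obtain ⟨u, hu⟩ : ∃ u : E, u = (Matrix.of fun i j => E' i (x j)).det := ⟨_, rfl⟩
    have h1 : ∀ k, τ k = algebraMap E N u * τ' k := by
      intro k
      rw [hτ, hτ', hu]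
      exact tr_change hl.bas hl.dual s (φ k) G'
    have h2 : θ E' = u ^ m * θ Ex := by
      rw [hu]
      exact pluri_coord hx hEx hθ E'
    have h3 : (∏ k, trForm y (τ k) D) * algebraMap E N (θ Ex) =
        (∏ k, trForm y (τ' k) D) * algebraMap E N (θ E') := by
      have h4 : ∀ k, trForm y (τ k) D = algebraMap E N u * trForm y (τ' k) D := by
        intro k
        rw [h1, trForm_smul]
      rw [Finset.prod_congr rfl fun k _ => h4 k, Finset.prod_mul_distrib, Finset.prod_const,
        Finset.card_univ, Fintype.card_fin, h2, map_mul, map_pow]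
      ring
    rw [h3] at hcase ⊢
    have hne3 := left_ne_zero_of_mul hcase
    have hne4 := right_ne_zero_of_mul hcase
    have h4 := ge_prod (Q := Q) (m := m) (c := (r : ℤ) - 1) (g := fun k => trForm y (τ' k) D)
      fun k => by
        rw [hτ']
        exact ge_nontriv hF hs (hφ k) hn hy hG hG' hQd hv hl hD
    have h5 := h4.resolve_left hne3
    have h6 := ((hpos v hvd E' hl.pres).resolve_left fun h => hne4 (by rw [h, map_zero])) g hgT hg0
    rw [Q.ord_mul hne3 hne4, hv.2, hv.2]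
    have hr0 : (0 : ℤ) ≤ r := Int.natCast_nonneg r
    have h7 := mul_le_mul_of_nonneg_left h6 hr0
    have hr : (m : ℤ) * c ≤ m * r := mul_le_mul_of_nonneg_left hcr hm0
    nlinarith

end

end Pool.Agent.U192.TP
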