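import Pool.Agent.U192.TP.Loc

/-!
Products of forms on two varieties: the traces.
-/

set_option autoImplicit false
set_option linter.overlappingInstances false
set_option linter.unusedSectionVars false

open FF Pool.Agent.W602.GT Pool.Agent.W603.LV Pool.Agent.W619.PQ Pool.Agent.Y172
open Pool.Agent.Y184.NT (trForm trForm_pluri)

namespace Pool.Agent.U192.TP

open Pool.Agent.U192.TF (ge_of_log trForm_smul)

section

variable {K M E F : Type} [Field K] [Field M] [Field E] [Field F] [Algebra ℂ K] [Algebra ℂ M]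
  [Algebra ℂ E] [Algebra ℂ F] [Algebra E K] [Algebra F K] [Algebra M K] [Algebra E M]
  [IsScalarTower ℂ E K] [IsScalarTower ℂ F K] [IsScalarTower ℂ M K] [IsScalarTower ℂ E M]
  [IsScalarTower E M K]
  [FiniteDimensional M K] [Algebra.EssFiniteType ℂ M] [Algebra.EssFiniteType ℂ K]
  [Algebra.EssFiniteType ℂ E] [Algebra.EssFiniteType ℂ F] {d e : ℕ}

/-- the trace of the product form -/
noncomputable def tr (x : Fin d → E) (s : Fin e → F) (φ : F)
    (G' : Fin (d + e) → Derivation ℂ K K) : M :=
  Algebra.trace M K (trForm (zz2 K x s) (algebraMap F K φ) G')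

theorem tr_mul (c : E) (x : Fin d → E) (s : Fin e → F) (φ : F)
    (G' : Fin (d + e) → Derivation ℂ K K) :
    Algebra.trace M K (trForm (zz2 K x s) (algebraMap E K c * algebraMap F K φ) G') =
      algebraMap E M c * tr x s φ G' := by
  rw [trForm_smul, IsScalarTower.algebraMap_apply E M K, ← Algebra.smul_def, map_smul, smul_eq_mul]
  rfl

/-- change of coordinates -/
theorem tr_change {x x' : Fin d → E} {E' : Fin d → Derivation ℂ E E}
    (hx' : IsTranscendenceBasis ℂ x') (hE' : ∀ i j, E' i (x' j) = if i = j then 1 else 0)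
    (s : Fin e → F) (φ : F) (G' : Fin (d + e) → Derivation ℂ K K) :
    (tr x s φ G' : M) = algebraMap E M (Matrix.of fun i j => E' i (x j)).det * tr x' s φ G' := by
  unfold tr
  rw [form_change_x hx' hE', IsScalarTower.algebraMap_apply E M K, ← Algebra.smul_def, map_smul,
    smul_eq_mul]

variable (hF : Algebra.trdeg ℂ F = e) {s : Fin e → F} (hs : IsTranscendenceBasis ℂ s)
  {φ : F} (hφ : φ ∈ HC s)
  (hn : Algebra.trdeg ℂ M = (d + e : ℕ)) {y : Fin (d + e) → M}
  {G : Fin (d + e) → Derivation ℂ M M} (hy : IsTranscendenceBasis ℂ y)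
  (hG : ∀ i j, G i (y j) = if i = j then 1 else 0) {G' : Fin (d + e) → Derivation ℂ K K}
  (hG' : ∀ i f, G' i (algebraMap M K f) = algebraMap M K (G i f))

include hF hs hφ hn hy hG hG' in
/-- **The trace at a place which is not trivial on the base.** -/
theorem ge_nontriv {Q : Place ℂ M} (hQ : Divisorial (d + e) Q) {v : Place ℂ E} {r : ℕ}
    (hv : Over Q v r) {x : Fin d → E} {EE : Fin d → Derivation ℂ E E} {i0 : Fin d}
    (hl : Loc v x EE i0) {D : Fin (d + e) → Derivation ℂ M M} (hD : ∀ i, DerReg Q (D i)) :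
    Ge Q ((r : ℤ) - 1) (trForm y (tr x s φ G') D) := by
  have hK : Algebra.trdeg ℂ K = (d + e : ℕ) := Pool.Agent.Y172.trdeg_up (K := M) hn
  have hlog : LogAt Q (trForm y (Algebra.trace M K
      (trForm (zz2 K x s) (algebraMap E K (x i0)⁻¹ * algebraMap F K φ) G'))) :=
    Pool.Agent.R882.LT.trForm_logAt hn hy hG hG' _ (trForm_pluri _ _) Q hQ fun Q1 e1 hQ1 =>
      form_logx hF hK hs hφ (divisorial_up hQ1 hQ) (fun b => by
        rw [IsScalarTower.algebraMap_apply E M K]
        exact hQ1.reg.2 (hv.reg.2 (hl.reg b))) fun b => by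
          have h1 := hl.bas.1.transcendental b
          intro h0
          rw [h0] at h1
          exact h1 isAlgebraic_zero
  rw [tr_mul, show algebraMap E M (x i0)⁻¹ * tr x s φ G' = algebraMap E M (x i0)⁻¹ *
    (tr x s φ G' : M) from rfl] at hlog
  have h1 := ge_of_log hn hQ (m := 1) (trForm_pluri y _) hlog hD
  rw [trForm_smul] at h1
  have h2 : Ge Q (r : ℤ) (algebraMap E M (x i0)) := by
    right
    rw [hv.2, hl.unif, mul_one]
  have h3 := h2.mul h1
  rw [← mul_assoc, ← map_mul, mul_inv_cancel₀ hl.ne, map_one, one_mul] at h3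
  exact h3.mono (by push_cast; linarith)

include hF hs hφ hn hy hG hG' in
/-- **The trace at a place which is trivial on the base.** -/
theorem ge_triv_reg {Q : Place ℂ M} (hQ : Divisorial (d + e) Q)
    (htriv : ∀ z : E, Q.ord (algebraMap E M z) = 0) {x : Fin d → E}
    {D : Fin (d + e) → Derivation ℂ M M} (hD : ∀ i, DerReg Q (D i)) :
    Ge Q 0 (trForm y (tr x s φ G') D) := by
  have hK : Algebra.trdeg ℂ K = (d + e : ℕ) := Pool.Agent.Y172.trdeg_up (K := M) hn
  exact Pool.Agent.R882.LT.trForm_regAt hn hy hG hG' _ (trForm_pluri _ _) Q hQ (fun Q1 e1 hQ1 =>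
      form_reg hF hK hs hφ (divisorial_up hQ1 hQ) (fun b => by
        rw [IsScalarTower.algebraMap_apply E M K]
        exact hQ1.reg.2 (Or.inr (htriv _).ge))) D hD

end

end Pool.Agent.U192.TP
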